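import Pool.Agent.Q58.Trop.PartTwo

/-!
# The `4 × 4` minors of the symmetric `n × n` matrix are not a tropical basis for `n ≥ 8`

For every `n ≥ 8` (in particular for `n = 8, 9, 10, 11, 12`) there is a weight `w` with values in
`{0, 1}` that lies in the tropical hypersurfaces of all `4 × 4` minors of the symmetric `n × n`
matrix of indeterminates, but not in the tropical variety of the ideal generated by them.
-/

set_option autoImplicit false

namespace Pool.Agent.Results.MP_0ed883_ag.SizeAtLeastEight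

open Q58.Trop MvPolynomial

theorem result (n : ℕ) (hn : 8 ≤ n) :
    ¬ IsTropicalBasis (minors n) ∧
      ∃ w : Sym2 (Fin n) → ℝ, (∀ e, w e = 0 ∨ w e = 1) ∧ (∀ f ∈ minors n, w ∈ trop f) ∧
        w ∉ tropVar (Ideal.span (minors n)) := by
  have key : ∃ w : Sym2 (Fin n) → ℝ, (∀ e, w e = 0 ∨ w e = 1) ∧ (∀ f ∈ minors n, w ∈ trop f) ∧
      w ∉ tropVar (Ideal.span (minors n)) := by
    refine ⟨fun e => (gw (Vn n) e : ℝ), ?_, ?_, part_two hn⟩
    · intro e
      by_cases h : (3 : ℤ) ∣ gram (Vn n) e
      · right; simp [gw, h]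
      · left; simp [gw, h]
    · rintro f ⟨r, c, rfl⟩
      exact part_one (Vn n) nine_not_dvd r c r.injective c.injective
  refine ⟨?_, key⟩
  obtain ⟨w, -, h1, h2⟩ := key
  intro h
  apply h2
  rw [IsTropicalBasis] at h
  rw [← h, Set.mem_iInter₂]
  exact h1

end Pool.Agent.Results.MP_0ed883_ag.SizeAtLeastEight
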